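import Pool.Agent.TH450.NM.F

/-!
# Uniform boundedness for rational maps whose minimal resultant dominates the geometric sizes

Away from a finite set `T` of finite places the map `f` has potentially good reduction, but `f`
may still have bad reduction over `K` there: the local part `minres` of its minimal resultant may
be positive.  At such a place the `K`-rational points fall into two cells inside of which the
normalised Green pairing is at least a fixed multiple of `minres`: there is a frame of `K ^ 2`
adapted to the norm given by the good coordinates over the algebraic closure, and the value group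
of `K` is discrete.  These places do not interact, since two cells always contain a third of all
pairs.  Hence the minimal resultants at the places of potentially good reduction add up on the good
side of the inequality obtained from the product formula, while the loss at the other places is of
the order of `log n / n` times the geometric sizes for `n` points.
-/

set_option autoImplicit false

namespace Pool.Agent.Results.MP_90787a_nt.DominantMinimalResultant

open Real NumberField Pool.Agent.H951R3.PB Pool.Agent.TH450.NM

universe u

/-- For all `d ≥ 2` and `D` there is `C` such that for every number field `K` of degree at most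
`D`, every morphism `f` of degree `d` of the projective line over `K`, every finite set `T` of
finite places outside which `f` has potentially good reduction, every finite set `S` of finite
places at each of which `f` has potentially good reduction (or at least the minimal resultant is at
least `C` times `1 +` the geometric size of `f`), and every `R ≥ 1`: if the sum over the infinite
places and `T` of `1 +` (geometric size of `f` at `v`) is at most `R` times the sum of one of these
terms and of the local parts `minres` of the minimal resultant of `f` at the places of `S`, then
`f` has at most `C * R * log (1 + R)` preperiodic points in the projective line over `K`. -/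
theorem result (d : ℕ) (hd : 2 ≤ d) (D : ℕ) : ∃ C : ℝ, 1 ≤ C ∧
    ∀ (K : Type u) [Field K] [NumberField K], Module.finrank ℚ K ≤ D →
    ∀ f : Fin 2 → MvPolynomial (Fin 2) K, (∀ i, (f i).IsHomogeneous d) →
      (∀ x : Fin 2 → AlgebraicClosure K, (∀ i, MvPolynomial.aeval x (f i) = 0) → x = 0) →
    ∀ T : Finset (FinitePlace K), (∀ v, v ∉ T → PotGood v.val d f) →
    ∀ S : Finset (FinitePlace K), ∀ R : ℝ, 1 ≤ R →
      (∃ (wi : InfinitePlace K → AbsoluteValue (AlgebraicClosure K) ℝ)
        (wf : FinitePlace K → AbsoluteValue (AlgebraicClosure K) ℝ)
        (j : InfinitePlace K ⊕ T), (∀ v, Ext v.val (wi v)) ∧ (∀ v, Ext v.val (wf v)) ∧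
        (∀ v ∈ S, v ∉ T ∨ C * (1 + max (msz d f (wf v)) 0) ≤ minres v.val d f) ∧
        ∑ v : InfinitePlace K, (1 + max (msz d f (wi v)) 0) +
          ∑ v ∈ T, (1 + max (msz d f (wf v)) 0) ≤
          R * (1 + max (msz d f (Sum.elim wi (fun v : T => wf v.1) j)) 0 +
            ∑ v ∈ S, minres v.val d f)) →
    ∀ X : Finset (Fin 2 → K), (∀ x ∈ X, x ≠ 0) →
      (∀ x ∈ X, ∀ y ∈ X, ∀ c : K, x = c • y → x = y) →
      (∀ x ∈ X, ∃ m n : ℕ, m < n ∧ ∃ c : K, c ≠ 0 ∧
        (fun v : Fin 2 → K => fun i => MvPolynomial.eval v (f i))^[n] x =
          c • (fun v : Fin 2 → K => fun i => MvPolynomial.eval v (f i))^[m] x) →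
      (X.card : ℝ) ≤ C * R * log (1 + R) :=
  main_pre_W d hd D

end Pool.Agent.Results.MP_90787a_nt.DominantMinimalResultant
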