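import Pool.Agent.TH856.PG.ImQuad

set_option autoImplicit false

/-!
# Maps with everywhere potentially good reduction over imaginary quadratic fields

Let `K` be an imaginary quadratic field, `u ∈ {2, 4, 6}` the number of units of `𝓞 K` and
`f = [F : G]` a self-map of `ℙ¹` of degree `d ≥ 2` over `K` with potentially good reduction at every
finite place (`Pool.Agent.H892.PGK.PotGood`).  Then `f` has at most
`max (d + 2 + (u - 1) (u - 2)) (36 u + 38)` preperiodic points in `ℙ¹(K)`, of which at most
`d + 1 + (u - 1) (u - 2)` are periodic.  So the bounds are `max (d + 2) 110` and `d + 1` except for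
`ℚ(i)` and `ℚ(√-3)`, and always `max (d + 22) 254` and `d + 21`.  For every `K` and `d` there is
such an `f` with `d + 1` fixed points.

Outline.  In the good coordinates at `v` let `δ_v` be the chordal distance; the logarithms of the
`δ_v` and of the absolute value of the determinant of two vectors add up to zero, after weights are
attached to the points.  At every `v` the distance of `f P` and `Q` is at most the product of the
distances of `P` to the rational points of the fibre of `Q`.  Hence all `δ_v` are preserved on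
periodic points, so that cross ratios change by units, and `f` agrees with a Möbius map on all but
at most `(u - 1) (u - 2)` periodic points; and a strictly preperiodic point has distance one to all
periodic points except one.  Two different points have, up to a factor less than two, the same
distances to at most `u` points.  The cases of one and two periodic points are treated with
Ptolemy's inequality for the global distance, the inequalities along the basin of a fixed point and
a packing argument.
-/

namespace Pool.Agent.Results.MP_90787a_nt.ImagQuadraticRationalMaps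

open MvPolynomial Pool.Agent.TH856.PG NumberField IsDedekindDomain
open Pool.Agent.H892.PGK (PotGood PP fX)

section
variable {K : Type} [Field K] [NumberField K] {d : ℕ} {F G : MvPolynomial (Fin 2) K}

theorem bound_preper {w : InfinitePlace K} (hw : ∀ w' : InfinitePlace K, w' = w)
    (hd : 2 ≤ d) (hF : F.IsHomogeneous d) (hG : G.IsHomogeneous d) (h0 : NoZero F G)
    (hp : ∀ v : HeightOneSpectrum (𝓞 K),
      PotGood (NumberField.HeightOneSpectrum.adicAbv K v) F G d)
    (S : Finset (Projectivization K (Fin 2 → K))) (hS : ∀ P ∈ S, IsPreper F G P) :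
    S.card ≤ max (d + 2 + (Nat.card (𝓞 K)ˣ - 1) * (Nat.card (𝓞 K)ˣ - 2))
      (36 * Nat.card (𝓞 K)ˣ + 38) := by
  classical
  apply card_preper_le h0 hF hG _ S hS
  intro T hT
  obtain ⟨W, _, h1, h2, h3⟩ := exists_sysK hw hd hF hG h0 hp T hT
  have a1 := two_le_card_units hw
  have a2 := card_units_le hw
  have a3 : w.mult ≤ 2 := by
    unfold InfinitePlace.mult
    split_ifs <;> omega
  have := W.card_le (M := 36) (by omega) (by omega) (by omega)
  rw [Fintype.card_coe, h1] at this
  have e : (Nat.card (𝓞 K)ˣ + 1) * 36 + 2 = 36 * Nat.card (𝓞 K)ˣ + 38 := by ring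
  rw [e] at this
  exact this

theorem bound_per {w : InfinitePlace K} (hw : ∀ w' : InfinitePlace K, w' = w)
    (hd : 2 ≤ d) (hF : F.IsHomogeneous d) (hG : G.IsHomogeneous d) (h0 : NoZero F G)
    (hp : ∀ v : HeightOneSpectrum (𝓞 K),
      PotGood (NumberField.HeightOneSpectrum.adicAbv K v) F G d)
    (S : Finset (Projectivization K (Fin 2 → K))) (hS : ∀ P ∈ S, IsPer F G P) :
    S.card ≤ d + 1 + (Nat.card (𝓞 K)ˣ - 1) * (Nat.card (𝓞 K)ˣ - 2) := by
  classical
  apply card_per_le (V := HeightOneSpectrum (𝓞 K)) h0 hF hG _ S hS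
  intro T hT
  obtain ⟨W, h, h1, h2, h3⟩ := exists_sysK hw hd hF hG h0 hp T hT
  refine ⟨W, h, ?_⟩
  rcases Nat.lt_or_ge W.per.card 3 with h4 | h4
  · omega
  · have := W.per_card_le h4
    rw [h1] at this
    exact this

end

/-- Let `K` be an imaginary quadratic field and `u` the number of units of `𝓞 K`, so that
`2 ≤ u ≤ 6`.  Let `F`, `G` be binary forms of degree `d ≥ 2` over `K` without common zero over the
algebraic closure, such that `[F : G]` has potentially good reduction at every finite place.  Then
`[F : G]` has at most `max (d + 2 + (u - 1) (u - 2)) (36 u + 38)` preperiodic points in `ℙ¹(K)`, and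
at most `d + 1 + (u - 1) (u - 2)` of them are periodic.  For every `d ≥ 2` some such pair has
`d + 1` fixed points in `ℙ¹(K)`. -/
theorem result (K : Type) [Field K] [NumberField K] (hK : Module.finrank ℚ K = 2)
    (hc : ∀ w : InfinitePlace K, w.IsComplex) :
    (2 ≤ Nat.card (𝓞 K)ˣ ∧ Nat.card (𝓞 K)ˣ ≤ 6) ∧
    (∀ d : ℕ, 2 ≤ d → ∀ F G : MvPolynomial (Fin 2) K, F.IsHomogeneous d → G.IsHomogeneous d →
      (∀ x : Fin 2 → AlgebraicClosure K, x ≠ 0 →
        ¬ (MvPolynomial.aeval x F = 0 ∧ MvPolynomial.aeval x G = 0)) →
      (∀ v : HeightOneSpectrum (𝓞 K),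
        PotGood (NumberField.HeightOneSpectrum.adicAbv K v) F G d) →
      (∀ S : Finset (Projectivization K (Fin 2 → K)), (∀ P ∈ S, IsPreper F G P) →
        S.card ≤ max (d + 2 + (Nat.card (𝓞 K)ˣ - 1) * (Nat.card (𝓞 K)ˣ - 2))
          (36 * Nat.card (𝓞 K)ˣ + 38)) ∧
      (∀ S : Finset (Projectivization K (Fin 2 → K)), (∀ P ∈ S, IsPer F G P) →
        S.card ≤ d + 1 + (Nat.card (𝓞 K)ˣ - 1) * (Nat.card (𝓞 K)ˣ - 2))) ∧
    (∀ d : ℕ, 2 ≤ d → ∃ F G : MvPolynomial (Fin 2) K, F.IsHomogeneous d ∧ G.IsHomogeneous d ∧
      (∀ x : Fin 2 → AlgebraicClosure K, x ≠ 0 →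
        ¬ (MvPolynomial.aeval x F = 0 ∧ MvPolynomial.aeval x G = 0)) ∧
      (∀ v : HeightOneSpectrum (𝓞 K),
        PotGood (NumberField.HeightOneSpectrum.adicAbv K v) F G d) ∧
      ∃ S : Finset (Projectivization K (Fin 2 → K)), S.card = d + 1 ∧ ∀ P ∈ S, IsFix F G P) := by
  obtain ⟨w⟩ : Nonempty (InfinitePlace K) := inferInstance
  have hw : ∀ w' : InfinitePlace K, w' = w := unique_place hK hc w
  refine ⟨⟨two_le_card_units hw, card_units_le hw⟩,
    fun d hd F G hF hG h0 hp => ⟨bound_preper hw hd hF hG h0 hp, bound_per hw hd hF hG h0 hp⟩,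
    fun d hd => ⟨exF K d, exG K d, exF_hom hd, exG_hom d, fun x hx => ex_no_zero hd x hx,
      fun v => ex_potGood _ (NumberField.HeightOneSpectrum.adicAbv_add_le_max K v) hd,
      ex_fixed K hd⟩⟩

end Pool.Agent.Results.MP_90787a_nt.ImagQuadraticRationalMaps
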