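import Pool.Agent.TH78.OP.Final
import Pool.Agent.H504E.Skew
import Pool.Agent.TH78.TP.Place

set_option autoImplicit false

open Finset NumberField Pool.Agent.H504R2 Pool.Agent.H504D Pool.Agent.TH78.OP

namespace Pool.Agent.Results.MP_90787a_nt.OnePlaceAnyDegree

/-- `ExcPoly q d F`: the polynomial `F` in one variable, of degree `d`, is a composition of affine
polynomials `a X + b` (`a ≠ 0`), of powers `X ^ m` with `m` prime to `q (q - 1)`, and of Dickson
(Chebyshev) polynomials `D_m(X, a)`, `a ∈ K`, with `m` prime to `q (q² - 1)`.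
The number of factors and all the coefficients are arbitrary. -/
inductive ExcPoly {K : Type} [Field K] (q : ℕ) : ℕ → Polynomial K → Prop
  | affine (a b : K) (ha : a ≠ 0) : ExcPoly q 1 (Polynomial.C a * Polynomial.X + Polynomial.C b)
  | power (m : ℕ) (hm : 1 ≤ m) (h : Nat.Coprime m (q * (q - 1))) : ExcPoly q m (Polynomial.X ^ m)
  | dickson (m : ℕ) (a : K) (hm : 1 ≤ m) (h : Nat.Coprime m (q * (q ^ 2 - 1))) :
      ExcPoly q m (Polynomial.dickson 1 a m)
  | comp (d e : ℕ) (F G : Polynomial K) (hF : ExcPoly q d F) (hG : ExcPoly q e G) :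
      ExcPoly q (d * e) (F.comp G)

open scoped WithZero

variable {K : Type} [Field K] {v : Valuation K ℤᵐ⁰} {p q d : ℕ}

lemma ExcPoly.natDegree {F : Polynomial K} (h : ExcPoly q d F) : F.natDegree = d := by
  induction h with
  | affine a b ha => exact Polynomial.natDegree_linear ha
  | power m hm h => exact Polynomial.natDegree_X_pow m
  | dickson m a hm h =>
    obtain ⟨m', rfl⟩ : ∃ m', m = m' + 1 := ⟨m - 1, by omega⟩
    exact Polynomial.natDegree_eq_of_degree_eq_some (H504E.dickson_degree_aux a m').1
  | comp d e F G hF hG ihF ihG => rw [Polynomial.natDegree_comp, ihF, ihG]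

lemma ExcPoly.tame (hv : IsPlace v p q) (hp : p.Prime) (hq : ∃ f, q = p ^ f) (hpq : p ∣ q)
    {F : Polynomial K} (h : ExcPoly q d F) : Nonempty (TameL v (fun x => F.eval x)) := by
  induction h with
  | affine a b ha =>
    refine ⟨?_⟩
    have : (fun x => (Polynomial.C a * Polynomial.X + Polynomial.C b).eval x) = fun x => a * x + b := by
      funext x; simp
    rw [this]
    exact TameL.affine a b ha
  | power m hm h =>
    have hA : Adm p q m (0 : K) :=
      ⟨hm, h.coprime_dvd_right (hpq.trans (dvd_mul_right _ _)), h.coprime_dvd_right (dvd_mul_left _ _),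
        Or.inl rfl⟩
    refine ⟨?_⟩
    have : (fun x => (Polynomial.X ^ m : Polynomial K).eval x) = fun x => dk 0 x m := by
      funext x
      obtain ⟨m', rfl⟩ : ∃ m', m = m' + 1 := ⟨m - 1, by omega⟩
      rw [dk_zero]; simp
    rw [this]
    exact TameL.dickson hv hp hq hA
  | dickson m a hm h =>
    have h2 : Nat.Coprime m (q ^ 2 - 1) := h.coprime_dvd_right (dvd_mul_left _ _)
    have hA : Adm p q m a := by
      refine ⟨hm, h.coprime_dvd_right (hpq.trans (dvd_mul_right _ _)), ?_, Or.inr h2⟩
      refine h2.coprime_dvd_right ?_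
      have h1 : q ^ 2 - 1 = (q + 1) * (q - 1) := by
        have := Nat.sq_sub_sq q 1
        simpa using this
      rw [h1]
      exact dvd_mul_left _ _
    refine ⟨?_⟩
    have : (fun x => (Polynomial.dickson 1 a m : Polynomial K).eval x) = fun x => dk a x m := by
      funext x
      rw [dk_eq_dickson]
    rw [this]
    exact TameL.dickson hv hp hq hA
  | comp d e F G hF hG ihF ihG =>
    obtain ⟨T1⟩ := ihF
    obtain ⟨T2⟩ := ihG
    have : (fun x => (F.comp G).eval x) = fun x => F.eval (G.eval x) := by
      funext x; rw [Polynomial.eval_comp]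
    rw [this]
    exact ⟨T2.comp T1⟩

/-- **Uniform boundedness for exceptional polynomials at one place.**
Let `K` be a number field of ARBITRARY degree, `P` a prime ideal of `K` above the rational prime `p`,
of norm `q` and of ramification index at most `e`, and `L = q! (q - 1) p ^ (e + 1)`.
For every polynomial `F ∈ K[X]` of degree `d ≥ 2` in the class `ExcPoly q`, all preperiodic points of
`F` in `K` are fixed by the `L`-th iterate of `F` (`L` is independent of `F`, of `d` and of `K`), and
their number is at most `d ^ L`.  (The point `∞` of `ℙ¹(K)` is a fixed point of `F`.) -/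
theorem result (K : Type) [Field K] [NumberField K] (P : Ideal (𝓞 K)) (hP : P.IsPrime)
    (p e : ℕ) (hp : p.Prime) (hpP : (p : 𝓞 K) ∈ P) (he : (p : 𝓞 K) ∉ P ^ (e + 1))
    (d : ℕ) (hd : 2 ≤ d) (F : Polynomial K) (hF : ExcPoly (Ideal.absNorm P) d F) :
    (∀ x : K, (∃ s t : ℕ, s < t ∧ (fun y => F.eval y)^[s] x = (fun y => F.eval y)^[t] x) →
      (fun y => F.eval y)^[(Ideal.absNorm P).factorial * (Ideal.absNorm P - 1) * p ^ (e + 1)] x = x) ∧
    ∀ S : Finset K,
      (∀ x ∈ S, ∃ s t : ℕ, s < t ∧ (fun y => F.eval y)^[s] x = (fun y => F.eval y)^[t] x) →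
      S.card ≤ d ^ ((Ideal.absNorm P).factorial * (Ideal.absNorm P - 1) * p ^ (e + 1)) := by
  classical
  obtain ⟨v, hv, ⟨f, hf⟩, hev⟩ := Pool.Agent.TH78.TP.place_core K P hP p hp hpP
  have hf0 : f ≠ 0 := by
    rintro rfl
    rw [pow_zero, Ideal.absNorm_eq_one_iff] at hf
    exact hP.ne_top hf
  have hpq : p ∣ Ideal.absNorm P := by rw [hf]; exact dvd_pow_self _ hf0
  obtain ⟨T⟩ := hF.tame hv hp ⟨f, hf⟩ hpq
  set L := (Ideal.absNorm P).factorial * (Ideal.absNorm P - 1) * p ^ (e + 1) with hL
  have hq2 : 2 ≤ Ideal.absNorm P := by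
    rw [hf]
    calc 2 ≤ p := hp.two_le
      _ = p ^ 1 := (pow_one p).symm
      _ ≤ p ^ f := Nat.pow_le_pow_right hp.pos (by omega)
  have hL0 : 0 < L := Nat.mul_pos (Nat.mul_pos (Nat.factorial_pos _) (by omega)) (pow_pos hp.pos _)
  have hinj : Function.Injective (fun y => F.eval y) := by
    intro a b hab
    by_contra hne
    exact T.map_ne hne hab
  have h1 : ∀ x : K, (∃ s t : ℕ, s < t ∧ (fun y => F.eval y)^[s] x = (fun y => F.eval y)^[t] x) →
      (fun y => F.eval y)^[L] x = x := by
    rintro x ⟨s, t, hst, hx⟩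
    have h2 : (fun y => F.eval y)^[t - s] x = x := by
      apply (hinj.iterate s)
      rw [← Function.iterate_add_apply, show s + (t - s) = t by omega]
      exact hx.symm
    exact one_place_period hv hp (hev e he) T (by omega : 0 < t - s) h2
  refine ⟨h1, fun S hS => ?_⟩
  -- the polynomial `F^L - X`
  have hit : ∀ n : ℕ, ∀ x : K, (F.comp^[n] Polynomial.X).eval x = (fun y => F.eval y)^[n] x := by
    intro n
    induction n with
    | zero => intro x; simp
    | succ n ih =>
      intro x
      rw [Function.iterate_succ_apply', Function.iterate_succ_apply', Polynomial.eval_comp, ih]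
  have hdeg : ∀ n : ℕ, (F.comp^[n] Polynomial.X).natDegree = d ^ n := by
    intro n
    induction n with
    | zero => simp
    | succ n ih =>
      rw [Function.iterate_succ_apply', Polynomial.natDegree_comp, ih, hF.natDegree, pow_succ, mul_comm]
  have hdL : 2 ≤ d ^ L := by
    calc 2 ≤ d := hd
      _ = d ^ 1 := (pow_one d).symm
      _ ≤ d ^ L := Nat.pow_le_pow_right (by omega) hL0
  set Q : Polynomial K := F.comp^[L] Polynomial.X - Polynomial.X with hQ
  have hQd : Q.natDegree = d ^ L := by
    rw [hQ, Polynomial.natDegree_sub_eq_left_of_natDegree_lt, hdeg]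
    rw [hdeg, Polynomial.natDegree_X]
    omega
  have hQ0 : Q ≠ 0 := by
    intro h0
    rw [h0, Polynomial.natDegree_zero] at hQd
    omega
  calc S.card ≤ Q.roots.toFinset.card := by
        apply card_le_card
        intro x hx
        rw [Multiset.mem_toFinset, Polynomial.mem_roots hQ0, Polynomial.IsRoot.def, hQ,
          Polynomial.eval_sub, Polynomial.eval_X, hit, h1 x (hS x hx), sub_self]
    _ ≤ Q.roots.card := Multiset.toFinset_card_le _
    _ ≤ Q.natDegree := Polynomial.card_roots' _
    _ = d ^ L := hQd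

end Pool.Agent.Results.MP_90787a_nt.OnePlaceAnyDegree
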