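import Pool.Agent.TH377.Dyn.Main
import Pool.Agent.TH377.Dyn.Box

/-!
# MP_90787a_nt: the degrees of the preperiodic points of 100% of the polynomials

Let `K` be a number field and `d ≥ 2`.  A polynomial of degree `d` over `K` can be written as

  `φ = (c₀ + c₁ x + … + c_d x^d) / b`,  `b, c₀, …, c_d ∈ O_K`.

We prove that for 100% of the vectors `(b, c₀, …, c_d)` all preperiodic points of `φ` other than `∞`
have a degree over `K` that is divisible by `d`.  So `PrePer(φ, L) = {∞}` for ALL finite extensions
`L` of `K` whose degree `[L : K]` is not divisible by `d`: the degree of `L` is not bounded, and there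
is no dependence on `L` at all.  In particular `PrePer(φ, L) = {∞}` if `[L : K] < d`.  The
exceptional vectors have density zero in boxes (with respect to any integral basis), and in a
stronger sense: for every `ε > 0` there is an ideal `I ≠ 0` such that they lie in at most
`ε #(O_K/I)^(d+2)` residue classes modulo `I`.

Proof.  Let `v` be a prime of `K` that divides `b`, such that `F = c₀ + … + c_d x^d` is irreducible of
degree `d` modulo `v`.  Let `w` be a place of `L` above `v` and let `x ∈ L`.  If `x` is not integral
at `w`, or if `x` is integral and `F(x)` is a unit at `w`, then the orbit of `x` under `φ = F/b` tends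
to `∞` in the completion `L_w`, because `b` is not a unit at `w`.  So if `x` is preperiodic, then `x`
is integral at `w` and its residue class is a root of `F`, and `d` divides the residue degree
`f(w|v)`, for every `w`.  By `∑ e(w|v) f(w|v) = [L : K]`, `d` divides `[L : K]`.  Such a prime `v`
exists for almost all vectors: the polynomial is irreducible of degree `d` modulo `v` for at least
`(N v - 1) (N v)^d / 2d` of the classes of `(c₀, …, c_d)` modulo `v`, so both conditions hold for a
proportion of at least `(1/4d) (1/N v - 1/(N v)²)` of all vectors modulo `v²`, and the sum of the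
`1/N v` diverges.
-/

set_option autoImplicit false

open Polynomial NumberField Filter Topology

namespace Pool.Agent.Results.MP_90787a_nt.PolynomialDegrees

universe u v w

/-- The polynomial `(c₁ + c₂ x + … + c_{d+1} x^d) / c₀` over `K`, for a vector `(c₀, …, c_{d+1})` of
integers of `K`. -/
noncomputable def poly {K : Type u} [Field K] {d : ℕ} (c : Fin (d + 2) → 𝓞 K) : K[X] :=
  C ((c 0 : K)⁻¹) * ∑ i : Fin (d + 1), C (c i.succ : K) * X ^ (i : ℕ)

/-- The element `x` of the extension `L` of `K` is a preperiodic point of the map `y ↦ φ(y)` of `L`: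
two different iterates of it are equal, that is, its forward orbit is finite. -/
def IsPreperiodic {K : Type u} {L : Type v} [Field K] [Field L] [Algebra K L] (φ : K[X]) (x : L) :
    Prop :=
  ∃ m n : ℕ, m < n ∧ (fun y => aeval y φ)^[m] x = (fun y => aeval y φ)^[n] x

/-- The vectors `c = (b, c₀, …, c_d)` of integers of `K` that do not have the following property:
`b ≠ 0`, the polynomial `φ = (c₀ + … + c_d x^d) / b` has degree `d`, and every finite extension `L` of
`K` that contains a preperiodic point of `φ` has a degree divisible by `d`. -/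
def Exceptional (K : Type u) [Field K] (d : ℕ) : Set (Fin (d + 2) → 𝓞 K) :=
  {c | ¬ (c 0 ≠ 0 ∧ (poly c).natDegree = d ∧
    ∀ (L : Type v) [Field L] [Algebra K L] [FiniteDimensional K L] (x : L),
      IsPreperiodic (poly c) x → d ∣ Module.finrank K L)}

/-- Density zero: for every `ε > 0` there is an ideal `I ≠ 0` such that `E` lies in at most
`ε #(O_K/I)ᴺ` residue classes modulo `I`. -/
def DensityZero {K : Type u} [Field K] {N : ℕ} (E : Set (Fin N → 𝓞 K)) : Prop :=
  ∀ ε : ℝ, 0 < ε → ∃ I : Ideal (𝓞 K), I ≠ ⊥ ∧
    (Set.ncard ((fun (t : Fin N → 𝓞 K) i => Ideal.Quotient.mk I (t i)) '' E) : ℝ) ≤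
      ε * (Nat.card (𝓞 K ⧸ I) : ℝ) ^ N

/-- The vectors all of whose entries have coordinates of absolute value at most `H` in the integral
basis `ω`. -/
def Box {K : Type u} [Field K] {J : Type w} (ω : Module.Basis J ℤ (𝓞 K)) (N H : ℕ) :
    Set (Fin N → 𝓞 K) :=
  {c | ∀ i j, |ω.repr (c i) j| ≤ (H : ℤ)}

section proof

open IsDedekindDomain Pool.Agent.TH377.Dyn Pool.Agent.TH377.Sup

lemma poly_natDegree {K : Type u} [Field K] [NumberField K] {d : ℕ} (c : Fin (d + 2) → 𝓞 K)
    (h0 : c 0 ≠ 0) (v : HeightOneSpectrum (𝓞 K)) (h : IrrMod v d fun i => c i.succ) :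
    (poly c).natDegree = d := by
  have h1 : (∑ i : Fin (d + 1), C (c i.succ : K) * X ^ (i : ℕ) : K[X]) =
      (num c).map (algebraMap (𝓞 K) K) := by
    rw [num, pol_map]
    rfl
  have h2 : ((c 0 : K)⁻¹) ≠ 0 := by
    rw [Ne, inv_eq_zero]
    exact_mod_cast h0
  rw [poly, natDegree_C_mul h2, h1,
    natDegree_map_eq_of_injective (FaithfulSMul.algebraMap_injective (𝓞 K) K)]
  exact (num_facts c v h).1

end proof

/-- **The degrees of the preperiodic points of 100% of the polynomials.**  Let `K` be a number field
and `d ≥ 2`.  For all vectors `(b, c₀, …, c_d)` of integers of `K` outside a set of density zero, the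
polynomial `φ = (c₀ + … + c_d x^d) / b` has degree `d`, and `d` divides the degree over `K` of every
finite extension of `K` that contains a preperiodic point of `φ`.  So `∞` is the only preperiodic
point of `φ` in `P¹(L)` for all finite extensions `L` of `K` with `d ∤ [L : K]`. -/
theorem result (K : Type u) [Field K] [NumberField K] (d : ℕ) (hd : 2 ≤ d) :
    DensityZero (Exceptional.{u, v} K d) ∧
      ∀ (J : Type w) [Fintype J] (ω : Module.Basis J ℤ (𝓞 K)),
        Tendsto (fun H : ℕ => ((Exceptional.{u, v} K d ∩ Box ω (d + 2) H).ncard : ℝ) /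
          ((Box ω (d + 2) H).ncard : ℝ)) atTop (𝓝 0) := by
  have key : Pool.Agent.TH120.Sec.DZ (d + 2) (Exceptional.{u, v} K d) := by
    refine Pool.Agent.TH377.Dyn.DZ.mono
      (Pool.Agent.TH377.Dyn.dz_prime K d hd 1 one_ne_zero) ?_
    intro c hc hex
    obtain ⟨v, -, h1, h2, h3⟩ := hex
    apply hc
    have h0 : c 0 ≠ 0 := by
      intro h0
      apply h2
      rw [h0]
      exact zero_mem _
    refine ⟨h0, poly_natDegree c h0 v h3, ?_⟩
    rintro L _ _ _ x ⟨m, n, hmn, hx⟩
    exact Pool.Agent.TH377.Dyn.dvd_of_preperiodic (by omega) c v h0 h1 h3 x m n hmn hx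
  exact ⟨key, fun J _ ω => Pool.Agent.TH377.Dyn.box_tendsto _ key ω⟩

end Pool.Agent.Results.MP_90787a_nt.PolynomialDegrees
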